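import Pool.Agent.Q54.LatXC.Main

/-!
MP_899f7c_co, Q1 (negative answer): there is no polynomial relationship between the extension
complexities of the Voronoi cell of a lattice and of the Voronoi cell of the dual lattice.

The definitions (`Pool/Agent/Q54/LatXC/Defs.lean`):
* `IsPolytope`: bounded finite intersection of closed half-spaces of `ℝ^k`;
* `IsFacet Q F`: nonempty exposed face whose dimension is the dimension of `Q` minus one;
* `HasLift P r`: some linear map sends a polytope with exactly `r` facets onto `P`;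
* `xc P`: the least such `r`;
* `IsLattice d L`: `L` is the image of `ℤ^d` under an injective linear map to `ℝ^n`;
* `VC L`: the Voronoi cell inside the linear hull; `dual L`: the dual lattice.
-/

namespace Pool.Agent.Results.MP_899f7c_co.DualNotPolynomial

open Q54.LatXC

/-- For every polynomial `p` there is a lattice `L` of dimension at least one with
`xc (VC (dual L)) > p (xc (VC L))`. Quantitatively: for every `N` there is a lattice of dimension
`d = 2 N ^ 2 + 2 N + 1` with `xc (VC L) ≤ 2 (d ^ 2 + d)` and `xc (VC (dual L)) ≥ (3/2) ^ N - 1`.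
In both statements both Voronoi cells are linear images of polytopes, so the two extension
complexities are attained minima. -/
theorem result :
    (∀ p : Polynomial ℝ, ∃ (d n : ℕ) (L : Set (EuclideanSpace ℝ (Fin n))), 1 ≤ d ∧ IsLattice d L ∧
      (∃ r, HasLift (VC L) r) ∧ (∃ r, HasLift (VC (dual L)) r) ∧
      p.eval (xc (VC L) : ℝ) < (xc (VC (dual L)) : ℝ)) ∧
    (∀ N : ℕ, ∃ (d n : ℕ) (L : Set (EuclideanSpace ℝ (Fin n))), d = 2 * N ^ 2 + 2 * N + 1 ∧
      IsLattice d L ∧ (∃ r, HasLift (VC L) r) ∧ (∃ r, HasLift (VC (dual L)) r) ∧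
      xc (VC L) ≤ 2 * (d ^ 2 + d) ∧ (3 / 2 : ℝ) ^ N - 1 ≤ (xc (VC (dual L)) : ℝ)) := by
  refine ⟨main, ?_⟩
  intro N
  obtain ⟨L, hL, ⟨r, hr, hr2⟩, h2, h3⟩ := exists_lattice N
  refine ⟨dN N, dN N, L, ?_, hL, ⟨r, hr2⟩, h2, ?_, ?_⟩
  · rw [dN_eq]; ring
  · have h4 : xc (VC L) ≤ r := Nat.sInf_le hr2
    have h5 : 2 * (dN N * dN N + dN N) = 2 * ((dN N) ^ 2 + dN N) := by ring
    rw [← h5]
    exact h4.trans hr
  · have h6 : HasLift (VC (dual L)) (xc (VC (dual L))) := Nat.sInf_mem h2
    have h7 := h3 _ h6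
    have h8 : (3/2 : ℝ)^N ≤ (xc (VC (dual L)) : ℝ) + 1 := by
      rw [div_pow, div_le_iff₀ (by positivity)]
      exact_mod_cast h7
    linarith

end Pool.Agent.Results.MP_899f7c_co.DualNotPolynomial
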